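import Mathlib
import Pool.Agent.U110.BN.PM

/-!
# Varieties of groups whose `d`-generated members are finite, `d ≥ 3`: reduction to prime powers

The results `ThreeGenerated` and `ThreeGeneratedFive` reduce the local finiteness of a variety with
finite `d`-generated groups, `d ≥ 3`, to the groups of prime power exponent in it, if the
`d`-generated groups are soluble.  Here this is proved without solubility; the only condition on the
finite nonabelian simple groups in the variety are two properties which all finite nonabelian
simple groups have (see `Good`).  The theorem on groups which is used is `Pool.Agent.U110.BN.main_all`;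
its proof is outlined in `Pool/Agent/Results/MP_544bd1_al/ThreeGeneratorsGeneral.lean`.
-/

set_option autoImplicit false

namespace Pool.Agent.Results.MP_01f347_al.ThreeGeneratedGeneral

open Pool.Agent.U110.BN (SecU main_all good_a5)

/-- `G` belongs to the variety defined by the laws `L`. -/
def Obeys (L : Set (FreeGroup ℕ)) (G : Type) [Group G] : Prop :=
  ∀ f : FreeGroup ℕ →* G, ∀ w ∈ L, f w = 1

/-- All groups in the variety defined by `L` which are generated by at most `d` elements are
finite. -/
def FiniteRank (L : Set (FreeGroup ℕ)) (d : ℕ) : Prop :=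
  ∀ (G : Type) [Group G], Obeys L G → (∃ s : Fin d → G, Subgroup.closure (Set.range s) = ⊤) →
    Finite G

/-- The variety defined by `L` is locally finite. -/
def LocallyFinite (L : Set (FreeGroup ℕ)) : Prop :=
  ∀ (G : Type) [Group G], Obeys L G → Group.FG G → Finite G

/-- `V` is a finite nonabelian simple group. -/
structure FiniteSimple (V : Type) [Group V] : Prop where
  finite : Finite V
  simple : IsSimpleGroup V
  nonabelian : ∃ a b : V, a * b ≠ b * a

/-- `V` has two different commuting involutions, and for each automorphism `α` of `V` different from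
the identity there is an element of `V` which lies in no proper `α`-invariant subgroup of `V`. -/
structure Good (V : Type) [Group V] : Prop where
  involutions : ∃ i j : V, i * i = 1 ∧ i ≠ 1 ∧ j * j = 1 ∧ j ≠ 1 ∧ i * j = j * i ∧ i ≠ j
  automorphisms : ∀ α : V ≃* V, (∃ t, α t ≠ t) →
    ∃ y : V, ∀ P : Subgroup V, y ∈ P → (∀ x ∈ P, α x ∈ P) → P = ⊤

/-- the laws `L` and the law `x ^ q` -/
def withPower (L : Set (FreeGroup ℕ)) (q : ℕ) : Set (FreeGroup ℕ) :=
  insert (FreeGroup.of 0 ^ q) L

theorem obeys_withPower {L : Set (FreeGroup ℕ)} {q : ℕ} {G : Type} [Group G] :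
    Obeys (withPower L q) G ↔ Obeys L G ∧ ∀ x : G, x ^ q = 1 := by
  constructor
  · intro h
    refine ⟨fun f w hw => h f w (Set.mem_insert_of_mem _ hw), fun x => ?_⟩
    have h1 := h (FreeGroup.lift fun _ => x) _ (Set.mem_insert _ _)
    rwa [map_pow, FreeGroup.lift_apply_of] at h1
  · rintro ⟨h1, h2⟩ f w hw
    rcases Set.mem_insert_iff.1 hw with rfl | hw
    · rw [map_pow, h2]
    · exact h1 f w hw

theorem finiteRank_mono {L : Set (FreeGroup ℕ)} {d e : ℕ} (hde : d ≤ e) (h : FiniteRank L e) :
    FiniteRank L d := by
  intro G _ hG ⟨s, hs⟩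
  refine h G hG ⟨fun i => if hi : (i : ℕ) < d then s ⟨i, hi⟩ else 1, ?_⟩
  rw [eq_top_iff, ← hs, Subgroup.closure_le]
  rintro _ ⟨i, rfl⟩
  refine Subgroup.subset_closure ⟨⟨i, lt_of_lt_of_le i.2 hde⟩, ?_⟩
  simp

/-- the local theorem for groups in the variety -/
theorem main {d : ℕ} (hd : 3 ≤ d) {L : Set (FreeGroup ℕ)} (hfin : FiniteRank L d)
    (hgood : ∀ (V : Type) [Group V], FiniteSimple V → Obeys L V → Good V)
    (hpow : ∀ p k : ℕ, p.Prime → 5 < p ^ k → LocallyFinite (withPower L (p ^ k))) :
    LocallyFinite L := by
  have h3 := finiteRank_mono hd hfin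
  have hF : Finite (Pool.Agent.H32BU.F3 L) := by
    refine h3 _ (Pool.Agent.H32BU.obeys_F3 L)
      ⟨fun i => QuotientGroup.mk (FreeGroup.of i), ?_⟩
    rw [show (Set.range fun i : Fin 3 =>
        (QuotientGroup.mk (FreeGroup.of i) : Pool.Agent.H32BU.F3 L)) =
        (QuotientGroup.mk' _) '' (Set.range (FreeGroup.of : Fin 3 → FreeGroup (Fin 3))) from by
      rw [← Set.range_comp]; rfl, ← MonoidHom.map_closure, FreeGroup.closure_range_of,
      ← MonoidHom.range_eq_map, MonoidHom.range_eq_top]
    exact QuotientGroup.mk'_surjective _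
  intro G _ hG hfg
  have hn : 1 ≤ Nat.card (Pool.Agent.H32BU.F3 L) := Nat.card_pos
  have hGn : ∀ x : G, x ^ Nat.card (Pool.Agent.H32BU.F3 L) = 1 := by
    intro x
    obtain ⟨f, hf⟩ := Pool.Agent.H32BU.exists_hom L G hG x x x
    have hx : x ∈ f.range := by
      rw [hf]
      exact Subgroup.subset_closure (by simp)
    obtain ⟨u, rfl⟩ := hx
    rw [← map_pow, pow_card_eq_one', map_one]
  obtain ⟨S, hS⟩ := Group.fg_def.1 hfg
  have hc : Finite (Subgroup.closure (S : Set G)) := by
    refine main_all (c := Nat.card (Pool.Agent.H32BU.F3 L)) hn hGn ?_ (Or.inl ?_) ?_ _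
      S.finite_toSet
    · intro x y z
      obtain ⟨f, hf⟩ := Pool.Agent.H32BU.exists_hom L G hG x y z
      change f.range = Subgroup.closure {x, y, z} at hf
      rw [← hf]
      refine ⟨Finite.of_surjective f.rangeRestrict f.rangeRestrict_surjective, ?_⟩
      rintro V _ hfV h1 h2 ⟨A, g, hg⟩
      have hV : Obeys L V := by
        have e1 : Obeys L f.range :=
          Pool.Agent.H32BU.obeys_inj f.range.subtype f.range.subtype_injective hG
        have e2 : Obeys L A := Pool.Agent.H32BU.obeys_inj A.subtype A.subtype_injective e1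
        exact Pool.Agent.H32BU.obeys_surj g hg e2
      have := hgood V ⟨hfV, h1, h2⟩ hV
      exact ⟨this.1, this.2⟩
    · intro x y z
      obtain ⟨f, hf⟩ := Pool.Agent.H32BU.exists_hom L G hG x y z
      change f.range = Subgroup.closure {x, y, z} at hf
      rw [← hf]
      exact Nat.card_le_card_of_surjective f.rangeRestrict f.rangeRestrict_surjective
    · intro p k hp _ h5 A N _ hx T hT
      have e1 : Obeys L A := Pool.Agent.H32BU.obeys_inj A.subtype A.subtype_injective hG
      have e2 : Obeys L (A ⧸ N) :=
        Pool.Agent.H32BU.obeys_surj (QuotientGroup.mk' N) (QuotientGroup.mk'_surjective N) e1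
      have e3 : Obeys (withPower L (p ^ k)) (Subgroup.closure T) := by
        rw [obeys_withPower]
        refine ⟨Pool.Agent.H32BU.obeys_inj _ (Subgroup.closure T).subtype_injective e2, ?_⟩
        intro x
        apply Subtype.ext
        exact hx x
      refine hpow p k hp h5 _ e3 ?_
      exact (Group.fg_iff_subgroup_fg _).2 ⟨hT.toFinset, by rw [hT.coe_toFinset]⟩
  rw [hS] at hc
  exact Finite.of_equiv _ Subgroup.topEquiv.toEquiv

/-- (1) Let `d ≥ 3`, and let the groups generated by `d` elements in the variety defined by `L` be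
finite, and the finite nonabelian simple groups in it good. Then the variety is locally finite if
and only if for each prime power `p ^ k > 5` the variety of the groups in it which satisfy
`x ^ (p ^ k) = 1` is locally finite. (2) If all finite nonabelian simple groups are good, then for
every `d ≥ 3` the question has a positive answer for all varieties if and only if it has one for all
varieties whose groups satisfy `x ^ (p ^ k) = 1` for a prime power `p ^ k > 5`. (3) The alternating
group of degree `5` is good. -/
theorem result :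
    (∀ (d : ℕ) (L : Set (FreeGroup ℕ)), 3 ≤ d → FiniteRank L d →
      (∀ (V : Type) [Group V], FiniteSimple V → Obeys L V → Good V) →
      (LocallyFinite L ↔
        ∀ p k : ℕ, p.Prime → 5 < p ^ k → LocallyFinite (withPower L (p ^ k)))) ∧
    ((∀ (V : Type) [Group V], FiniteSimple V → Good V) → ∀ d : ℕ, 3 ≤ d →
      ((∀ L : Set (FreeGroup ℕ), FiniteRank L d → LocallyFinite L) ↔
        ∀ (L : Set (FreeGroup ℕ)) (p k : ℕ), p.Prime → 5 < p ^ k →
          (∀ (G : Type) [Group G], Obeys L G → ∀ x : G, x ^ p ^ k = 1) →
            FiniteRank L d → LocallyFinite L)) ∧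
    Good (alternatingGroup (Fin 5)) := by
  refine ⟨fun d L hd hfin hgood => ⟨fun h p k _ _ G _ hG => h G (obeys_withPower.1 hG).1,
    main hd hfin hgood⟩, fun hall d hd => ⟨fun h L p k _ _ _ hL => h L hL, fun h L hL => ?_⟩,
    good_a5.1, good_a5.2⟩
  refine main hd hL (fun V _ hV _ => hall V hV) fun p k hp h5 => ?_
  refine h _ p k hp h5 (fun G _ hG => (obeys_withPower.1 hG).2) ?_
  intro G _ hG hs
  exact hL G (obeys_withPower.1 hG).1 hs

end Pool.Agent.Results.MP_01f347_al.ThreeGeneratedGeneral
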